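import Mathlib

/-!
# Small unimodular combinations of `log 2` and `log 3`
-/

set_option autoImplicit false

open Real

namespace Pool.Agent.D0H29.HB

/-- the size of `2 ^ k * 3 ^ l` -/
noncomputable def ph (k l : ℤ) : ℝ := k * Real.log 2 + l * Real.log 3

lemma log2_pos : 0 < Real.log 2 := Real.log_pos (by norm_num)
lemma log3_pos : 0 < Real.log 3 := Real.log_pos (by norm_num)

lemma ph_add (k l k' l' : ℤ) : ph (k + k') (l + l') = ph k l + ph k' l' := by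
  unfold ph; push_cast; ring

lemma ph_nat (a b : ℕ) : ph a b = Real.log (2 ^ a * 3 ^ b) := by
  unfold ph
  rw [Real.log_mul (by positivity) (by positivity), Real.log_pow, Real.log_pow]
  push_cast
  ring

lemma ph_ne_nat (a b : ℕ) (h : (a : ℝ) * Real.log 2 = b * Real.log 3) : a = 0 ∧ b = 0 := by
  rw [← Real.log_pow, ← Real.log_pow] at h
  have h1 : (2 : ℝ) ^ a = 3 ^ b := Real.log_injOn_pos (Set.mem_Ioi.2 (by positivity)) (Set.mem_Ioi.2 (by positivity)) h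
  have h2 : 2 ^ a = 3 ^ b := by exact_mod_cast h1
  rcases Nat.eq_zero_or_pos a with ha | ha
  · subst ha
    refine ⟨rfl, ?_⟩
    by_contra hb
    have := Nat.one_lt_pow hb (by norm_num : 1 < 3)
    omega
  · exfalso
    have h3 : 2 ∣ 3 ^ b := by rw [← h2]; exact dvd_pow_self 2 ha.ne'
    have := Nat.Prime.dvd_of_dvd_pow Nat.prime_two h3
    omega

lemma ph_ne {k l : ℤ} (h : ph k l = 0) : k = 0 ∧ l = 0 := by
  unfold ph at h
  have h2 := log2_pos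
  have h3 := log3_pos
  rcases le_total 0 k with hk | hk <;> rcases le_total 0 l with hl | hl
  · have hk' : (0 : ℝ) ≤ k := by exact_mod_cast hk
    have hl' : (0 : ℝ) ≤ l := by exact_mod_cast hl
    have e1 : 0 ≤ (k : ℝ) * Real.log 2 := by positivity
    have e2 : 0 ≤ (l : ℝ) * Real.log 3 := by positivity
    have e3 : (k : ℝ) * Real.log 2 = 0 := by linarith
    have e4 : (l : ℝ) * Real.log 3 = 0 := by linarith
    have e5 := (mul_eq_zero.1 e3).resolve_right h2.ne'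
    have e6 := (mul_eq_zero.1 e4).resolve_right h3.ne'
    exact ⟨by exact_mod_cast e5, by exact_mod_cast e6⟩
  · obtain ⟨a, rfl⟩ := Int.eq_ofNat_of_zero_le hk
    obtain ⟨b, hb⟩ := Int.eq_ofNat_of_zero_le (neg_nonneg.2 hl)
    have hb' : l = -(b : ℤ) := by omega
    subst hb'
    push_cast at h
    obtain ⟨h4, h5⟩ := ph_ne_nat a b (by linarith)
    subst h4; subst h5; simp
  · obtain ⟨a, ha⟩ := Int.eq_ofNat_of_zero_le (neg_nonneg.2 hk)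
    obtain ⟨b, rfl⟩ := Int.eq_ofNat_of_zero_le hl
    have ha' : k = -(a : ℤ) := by omega
    subst ha'
    push_cast at h
    obtain ⟨h4, h5⟩ := ph_ne_nat a b (by linarith)
    subst h4; subst h5; simp
  · have hk' : (k : ℝ) ≤ 0 := by exact_mod_cast hk
    have hl' : (l : ℝ) ≤ 0 := by exact_mod_cast hl
    have e1 : (k : ℝ) * Real.log 2 ≤ 0 := mul_nonpos_of_nonpos_of_nonneg hk' h2.le
    have e2 : (l : ℝ) * Real.log 3 ≤ 0 := mul_nonpos_of_nonpos_of_nonneg hl' h3.le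
    have e3 : (k : ℝ) * Real.log 2 = 0 := by linarith
    have e4 : (l : ℝ) * Real.log 3 = 0 := by linarith
    have e5 := (mul_eq_zero.1 e3).resolve_right h2.ne'
    have e6 := (mul_eq_zero.1 e4).resolve_right h3.ne'
    exact ⟨by exact_mod_cast e5, by exact_mod_cast e6⟩

/-- a unimodular pair with values in `(0, M)` -/
def UM (M : ℝ) : Prop := ∃ k₁ l₁ k₂ l₂ : ℤ, (k₁ * l₂ - k₂ * l₁ = 1 ∨ k₁ * l₂ - k₂ * l₁ = -1) ∧
  0 < ph k₁ l₁ ∧ ph k₁ l₁ < M ∧ 0 < ph k₂ l₂ ∧ ph k₂ l₂ < M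

/-- subtract a multiple -/
lemma reduce {k₁ l₁ k₂ l₂ : ℤ} (hdet : k₁ * l₂ - k₂ * l₁ = 1 ∨ k₁ * l₂ - k₂ * l₁ = -1)
    (h1 : 0 < ph k₁ l₁) (h2 : 0 < ph k₂ l₂) :
    ∃ n : ℕ, 0 < ph (k₂ - n * k₁) (l₂ - n * l₁) ∧ ph (k₂ - n * k₁) (l₂ - n * l₁) < ph k₁ l₁ ∧
      (ph k₁ l₁ ≤ ph k₂ l₂ → ph (k₂ - n * k₁) (l₂ - n * l₁) < ph k₂ l₂ / 2) := by
  have e : ∀ n : ℕ, ph (k₂ - n * k₁) (l₂ - n * l₁) = ph k₂ l₂ - n * ph k₁ l₁ := by
    intro n; unfold ph; push_cast; ring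
  have hr : 0 ≤ ph k₂ l₂ / ph k₁ l₁ := by positivity
  have f1 : (⌊ph k₂ l₂ / ph k₁ l₁⌋₊ : ℝ) * ph k₁ l₁ ≤ ph k₂ l₂ := by
    have := Nat.floor_le hr
    rwa [le_div_iff₀ h1] at this
  have f2 : ph k₂ l₂ < (⌊ph k₂ l₂ / ph k₁ l₁⌋₊ + 1) * ph k₁ l₁ := by
    have := Nat.lt_floor_add_one (ph k₂ l₂ / ph k₁ l₁)
    rwa [div_lt_iff₀ h1] at this
  refine ⟨⌊ph k₂ l₂ / ph k₁ l₁⌋₊, ?_, ?_, ?_⟩
  · rw [e]
    refine lt_of_le_of_ne (by linarith) fun h => ?_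
    rw [← e] at h
    obtain ⟨h3, h4⟩ := ph_ne h.symm
    set n := ⌊ph k₂ l₂ / ph k₁ l₁⌋₊
    have h5 : k₂ = n * k₁ := by linarith
    have h6 : l₂ = n * l₁ := by linarith
    have h7 : k₁ * l₂ - k₂ * l₁ = 0 := by rw [h5, h6]; ring
    omega
  · rw [e]; linarith
  · intro hle
    rw [e]
    have h3 : 1 ≤ ⌊ph k₂ l₂ / ph k₁ l₁⌋₊ := by
      rw [Nat.one_le_floor_iff]
      rwa [le_div_iff₀ h1, one_mul]
    have h4 : (1 : ℝ) ≤ (⌊ph k₂ l₂ / ph k₁ l₁⌋₊ : ℝ) := by exact_mod_cast h3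
    have h5 : ph k₁ l₁ ≤ (⌊ph k₂ l₂ / ph k₁ l₁⌋₊ : ℝ) * ph k₁ l₁ := by nlinarith
    linarith

lemma half {M : ℝ} (h : UM M) : UM (M / 2) := by
  have key : ∀ k₁ l₁ k₂ l₂ : ℤ, (k₁ * l₂ - k₂ * l₁ = 1 ∨ k₁ * l₂ - k₂ * l₁ = -1) →
      0 < ph k₁ l₁ → 0 < ph k₂ l₂ → ph k₂ l₂ < M → ph k₁ l₁ ≤ ph k₂ l₂ → UM (M / 2) := by
    intro k₁ l₁ k₂ l₂ hd h1 h2 h3 h4
    obtain ⟨n, n1, n2, n3⟩ := reduce hd h1 h2
    have n4 := n3 h4
    have hd' : (k₂ - n * k₁) * l₁ - k₁ * (l₂ - n * l₁) = 1 ∨ (k₂ - n * k₁) * l₁ - k₁ * (l₂ - n * l₁) = -1 := by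
      have e : (k₂ - n * k₁) * l₁ - k₁ * (l₂ - n * l₁) = -(k₁ * l₂ - k₂ * l₁) := by ring
      rw [e]
      omega
    obtain ⟨m, m1, m2, -⟩ := reduce hd' n1 h1
    refine ⟨k₂ - n * k₁, l₂ - n * l₁, k₁ - m * (k₂ - n * k₁), l₁ - m * (l₂ - n * l₁), ?_, n1, by linarith, m1, by linarith⟩
    have e : (k₂ - n * k₁) * (l₁ - m * (l₂ - n * l₁)) - (k₁ - m * (k₂ - n * k₁)) * (l₂ - n * l₁) =
      (k₂ - n * k₁) * l₁ - k₁ * (l₂ - n * l₁) := by ring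
    rw [e]
    exact hd'
  obtain ⟨k₁, l₁, k₂, l₂, hd, h1, h2, h3, h4⟩ := h
  rcases le_total (ph k₁ l₁) (ph k₂ l₂) with h5 | h5
  · exact key k₁ l₁ k₂ l₂ hd h1 h3 h4 h5
  · refine key k₂ l₂ k₁ l₁ ?_ h3 h1 h2 h5
    have e : k₂ * l₁ - k₁ * l₂ = -(k₁ * l₂ - k₂ * l₁) := by ring
    rw [e]
    omega

/-- **Small unimodular pairs.** -/
theorem exists_um (ε : ℝ) (hε : 0 < ε) : UM ε := by
  have h0 : UM 2 := by
    refine ⟨1, 0, 0, 1, Or.inl (by norm_num), ?_, ?_, ?_, ?_⟩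
    · have := log2_pos; unfold ph; simpa using this
    · unfold ph
      have := Real.log_two_lt_d9
      norm_num at this ⊢
      linarith
    · have := log3_pos; unfold ph; simpa using this
    · unfold ph
      have h := Real.log_lt_sub_one_of_pos (by norm_num : (0 : ℝ) < 3) (by norm_num)
      norm_num at h ⊢
      linarith
  have h1 : ∀ n : ℕ, UM (2 / 2 ^ n) := by
    intro n
    induction n with
    | zero => simpa using h0
    | succ n ih =>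
      have := half ih
      rwa [div_div, ← pow_succ] at this
  obtain ⟨n, hn⟩ := pow_unbounded_of_one_lt (2 / ε) (by norm_num : (1 : ℝ) < 2)
  obtain ⟨k₁, l₁, k₂, l₂, hd, h2, h3, h4, h5⟩ := h1 n
  have h6 : (2 : ℝ) / 2 ^ n < ε := by
    rw [div_lt_iff₀ (by positivity)]
    rw [div_lt_iff₀ hε] at hn
    linarith
  exact ⟨k₁, l₁, k₂, l₂, hd, h2, h3.trans h6, h4, h5.trans h6⟩

/-- **Base points.** -/
theorem exists_base {ε : ℝ} (k l : ℤ) (h0 : 0 < ph k l) (hε : ph k l < ε) (A B : ℕ) :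
    ∃ t₀ : ℝ, ∀ t : ℝ, t₀ ≤ t → ∃ a b : ℕ, A ≤ a ∧ B ≤ b ∧ t ≤ ph a b ∧ ph a b < t + ε := by
  have hl3 := log3_pos
  set x := ph k l with hx
  set m : ℕ := ⌈Real.log 3 / x⌉₊ with hm
  refine ⟨ph ((A + m * k.natAbs : ℕ) : ℤ) ((B + m * l.natAbs : ℕ) : ℤ), fun t ht => ?_⟩
  set t₀ := ph ((A + m * k.natAbs : ℕ) : ℤ) ((B + m * l.natAbs : ℕ) : ℤ) with ht₀
  set j : ℕ := ⌊(t - t₀) / Real.log 3⌋₊ with hj
  have hj1 : (j : ℝ) * Real.log 3 ≤ t - t₀ := by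
    have := Nat.floor_le (show 0 ≤ (t - t₀) / Real.log 3 from div_nonneg (by linarith) hl3.le)
    rwa [le_div_iff₀ hl3] at this
  have hj2 : t - t₀ < (j + 1) * Real.log 3 := by
    have := Nat.lt_floor_add_one ((t - t₀) / Real.log 3)
    rwa [div_lt_iff₀ hl3] at this
  obtain ⟨r, hr⟩ : ∃ r, r = t - t₀ - j * Real.log 3 := ⟨_, rfl⟩
  have hr0 : 0 ≤ r := by rw [hr]; linarith
  have hr1 : r < Real.log 3 := by rw [hr]; linarith
  set n : ℕ := ⌈r / x⌉₊ with hn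
  have hn1 : r ≤ n * x := by
    have := Nat.le_ceil (r / x)
    rwa [div_le_iff₀ h0] at this
  have hn2 : n * x < r + x := by
    have := Nat.ceil_lt_add_one (show 0 ≤ r / x from div_nonneg hr0 h0.le)
    rw [← hn] at this
    have h2 : (n : ℝ) * x < (r / x + 1) * x := by gcongr
    have h3 : (r / x + 1) * x = r + x := by field_simp
    linarith
  have hnm : n ≤ m := by
    apply Nat.ceil_le_ceil
    gcongr
  have ha : 0 ≤ (m : ℤ) * k.natAbs + n * k := by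
    have h1 : -(k.natAbs : ℤ) ≤ k := by omega
    have h2 : (n : ℤ) * (-(k.natAbs : ℤ)) ≤ n * k := by gcongr
    have h3 : (n : ℤ) * k.natAbs ≤ m * k.natAbs := by gcongr
    linarith
  have hb : 0 ≤ (m : ℤ) * l.natAbs + n * l := by
    have h1 : -(l.natAbs : ℤ) ≤ l := by omega
    have h2 : (n : ℤ) * (-(l.natAbs : ℤ)) ≤ n * l := by gcongr
    have h3 : (n : ℤ) * l.natAbs ≤ m * l.natAbs := by gcongr
    linarith
  obtain ⟨a, ha'⟩ := Int.eq_ofNat_of_zero_le ha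
  obtain ⟨b, hb'⟩ := Int.eq_ofNat_of_zero_le hb
  refine ⟨A + a, B + b + j, by omega, by omega, ?_⟩
  have e : ph ((A + a : ℕ) : ℤ) ((B + b + j : ℕ) : ℤ) = t₀ + j * Real.log 3 + n * x := by
    have e1 : ((A + a : ℕ) : ℤ) = (A + m * k.natAbs : ℕ) + n * k := by
      rw [Nat.cast_add, Nat.cast_add, Nat.cast_mul]; linarith
    have e2 : ((B + b + j : ℕ) : ℤ) = (B + m * l.natAbs : ℕ) + (j + n * l) := by
      rw [Nat.cast_add, Nat.cast_add, Nat.cast_add, Nat.cast_mul]; linarith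
    rw [e1, e2, ph_add, ht₀, hx, add_assoc]
    congr 1
    unfold ph
    push_cast
    ring
  rw [e]
  constructor
  · linarith
  · linarith

end Pool.Agent.D0H29.HB
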