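import Mathlib

/-!
# Double recurrences: sixteen values determine the solution
-/

set_option autoImplicit false

open Polynomial

namespace Pool.Agent.D0H29.HB

section abstract_

variable {V : Type} [AddCommGroup V] [Module ℂ V] [FiniteDimensional ℂ V]

lemma forward (h4 : Module.finrank ℂ V ≤ 4) (T : Module.End ℂ V) (f : V →ₗ[ℂ] ℂ) (x : V)
    (h : ∀ i : ℕ, i < 4 → f ((T ^ i) x) = 0) (k : ℕ) : f ((T ^ k) x) = 0 := by
  rw [LinearMap.pow_eq_aeval_mod_charpoly]
  set q := X ^ k %ₘ T.charpoly with hq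
  rcases Nat.eq_zero_or_pos (Module.finrank ℂ V) with h0 | h0
  · have : Subsingleton V := Module.finrank_zero_iff.1 h0
    rw [Subsingleton.elim ((aeval T q) x) 0, map_zero]
  · have hdeg : q.natDegree < 4 := by
      have h1 : q.natDegree < T.charpoly.natDegree := by
        apply natDegree_modByMonic_lt _ T.charpoly_monic
        intro h2
        have h3 := T.charpoly_natDegree
        rw [h2, natDegree_one] at h3
        omega
      rw [T.charpoly_natDegree] at h1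
      omega
    rw [aeval_eq_sum_range' hdeg, LinearMap.sum_apply, map_sum]
    refine Finset.sum_eq_zero fun i hi => ?_
    rw [LinearMap.smul_apply, map_smul, h i (Finset.mem_range.1 hi), smul_zero]

omit [FiniteDimensional ℂ V] in
lemma coe_pow (T : V ≃ₗ[ℂ] V) (n : ℕ) (x : V) : (T ^ n) x = (((T : V →ₗ[ℂ] V) : Module.End ℂ V) ^ n) x := by
  induction n generalizing x with
  | zero => simp
  | succ n ih =>
    rw [pow_succ, pow_succ, LinearEquiv.mul_apply, Module.End.mul_apply, ih]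
    rfl

lemma both (h4 : Module.finrank ℂ V ≤ 4) (T : V ≃ₗ[ℂ] V) (f : V →ₗ[ℂ] ℂ) (x : V)
    (h : ∀ i : ℕ, i < 4 → f ((T ^ i) x) = 0) (k : ℤ) : f ((T ^ k) x) = 0 := by
  have hf : ∀ k : ℕ, f ((T ^ k) x) = 0 := by
    intro k
    rw [coe_pow]
    apply forward h4
    intro i hi
    rw [← coe_pow]
    exact h i hi
  have hb : ∀ k : ℕ, f (((T⁻¹) ^ k) ((T ^ 3) x)) = 0 := by
    intro k
    rw [coe_pow]
    apply forward h4
    intro i hi
    rw [← coe_pow, ← LinearEquiv.mul_apply]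
    have e : (T⁻¹) ^ i * T ^ 3 = T ^ (3 - i) := by
      rw [inv_pow, inv_mul_eq_iff_eq_mul, ← pow_add]
      congr 1
      omega
    rw [e]
    exact h _ (by omega)
  obtain ⟨n, rfl | rfl⟩ := k.eq_nat_or_neg
  · rw [zpow_natCast]
    exact hf n
  · have h1 := hb (n + 3)
    rw [← LinearEquiv.mul_apply] at h1
    have e : (T⁻¹) ^ (n + 3) * T ^ 3 = T ^ (-(n : ℤ)) := by
      rw [zpow_neg, zpow_natCast, inv_pow, inv_mul_eq_iff_eq_mul, pow_add]
      have : T ^ n * T ^ 3 * (T ^ n)⁻¹ = T ^ 3 := by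
        rw [← pow_add, add_comm n 3, pow_add, mul_inv_cancel_right]
      rw [this]
    rwa [e] at h1

/-- **Sixteen points.** -/
theorem sixteen (h4 : Module.finrank ℂ V ≤ 4) (P Q : V ≃ₗ[ℂ] V) (hPQ : Commute P Q) (f : V →ₗ[ℂ] ℂ) (x : V)
    (a₀ b₀ k₁ l₁ k₂ l₂ : ℤ) (hdet : k₁ * l₂ - k₂ * l₁ = 1 ∨ k₁ * l₂ - k₂ * l₁ = -1)
    (h : ∀ i j : ℕ, i < 4 → j < 4 → f ((P ^ (a₀ + i * k₁ + j * k₂) * Q ^ (b₀ + i * l₁ + j * l₂)) x) = 0)
    (a b : ℤ) : f ((P ^ a * Q ^ b) x) = 0 := by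
  have hz : ∀ m n : ℤ, Commute (P ^ m) (Q ^ n) := fun m n => hPQ.zpow_zpow m n
  set T₁ := P ^ k₁ * Q ^ l₁ with hT₁
  set T₂ := P ^ k₂ * Q ^ l₂ with hT₂
  set x₀ := (P ^ a₀ * Q ^ b₀) x with hx₀
  have e : ∀ m n : ℤ, (T₁ ^ m * T₂ ^ n) * (P ^ a₀ * Q ^ b₀) = P ^ (a₀ + m * k₁ + n * k₂) * Q ^ (b₀ + m * l₁ + n * l₂) := by
    intro m n
    have e1 : T₁ ^ m = P ^ (m * k₁) * Q ^ (m * l₁) := by
      rw [hT₁, (hz k₁ l₁).mul_zpow, ← zpow_mul, ← zpow_mul, mul_comm k₁, mul_comm l₁]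
    have e2 : T₂ ^ n = P ^ (n * k₂) * Q ^ (n * l₂) := by
      rw [hT₂, (hz k₂ l₂).mul_zpow, ← zpow_mul, ← zpow_mul, mul_comm k₂, mul_comm l₂]
    have e3 : ∀ r s u v : ℤ, (P ^ r * Q ^ s) * (P ^ u * Q ^ v) = P ^ (r + u) * Q ^ (s + v) := by
      intro r s u v
      calc (P ^ r * Q ^ s) * (P ^ u * Q ^ v) = P ^ r * (Q ^ s * P ^ u) * Q ^ v := by group
        _ = P ^ r * (P ^ u * Q ^ s) * Q ^ v := by rw [(hz u s).eq]
        _ = _ := by rw [zpow_add, zpow_add]; group
    rw [e1, e2, e3, e3]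
    congr 2 <;> ring
  have h1 : ∀ m : ℤ, ∀ j : ℕ, j < 4 → f ((T₁ ^ m * T₂ ^ (j : ℤ)) x₀) = 0 := by
    intro m j hj
    have h2 := both h4 T₁ f ((T₂ ^ (j : ℤ)) x₀) (fun i hi => by
      rw [hx₀, ← LinearEquiv.mul_apply, ← LinearEquiv.mul_apply, ← zpow_natCast T₁ i, e]
      have := h i j hi hj
      exact_mod_cast this) m
    rwa [← LinearEquiv.mul_apply] at h2
  have h2 : ∀ m n : ℤ, f ((T₁ ^ m * T₂ ^ n) x₀) = 0 := by
    intro m n
    have h3 := both h4 T₂ (f ∘ₗ ((T₁ ^ m : V ≃ₗ[ℂ] V) : V →ₗ[ℂ] V)) x₀ (fun j hj => by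
      have := h1 m j hj
      rw [LinearEquiv.mul_apply] at this
      rw [LinearMap.comp_apply, ← zpow_natCast]
      exact this) n
    rw [LinearMap.comp_apply] at h3
    rw [LinearEquiv.mul_apply]
    exact h3
  -- solve for m, n
  obtain ⟨m, n, hm, hn⟩ : ∃ m n : ℤ, a = a₀ + m * k₁ + n * k₂ ∧ b = b₀ + m * l₁ + n * l₂ := by
    rcases hdet with hd | hd
    · refine ⟨(a - a₀) * l₂ - (b - b₀) * k₂, (b - b₀) * k₁ - (a - a₀) * l₁, ?_, ?_⟩
      · linear_combination (-(a - a₀)) * hd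
      · linear_combination (-(b - b₀)) * hd
    · refine ⟨-((a - a₀) * l₂ - (b - b₀) * k₂), -((b - b₀) * k₁ - (a - a₀) * l₁), ?_, ?_⟩
      · linear_combination (a - a₀) * hd
      · linear_combination (b - b₀) * hd
  have h3 := h2 m n
  rw [hx₀, ← LinearEquiv.mul_apply, e, ← hm, ← hn] at h3
  exact h3

end abstract_

/-! ### the concrete space -/

/-- the space of the initial values -/
abbrev W := Fin 2 → Fin 2 → ℂ

lemma finrank_W : Module.finrank ℂ W ≤ 4 := by
  rw [Module.finrank_pi_fintype]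
  simp

/-- one step in the first variable -/
noncomputable def stepP (p c : ℂ) (hp : p ≠ 0) : W ≃ₗ[ℂ] W where
  toFun x := fun i j => if i = 0 then x 1 j else c * x 1 j - p * x 0 j
  invFun y := fun i j => if i = 0 then (c * y 0 j - y 1 j) / p else y 0 j
  map_add' x y := by
    funext i j
    by_cases h : i = 0
    · simp [h]
    · simp [h]; ring
  map_smul' r x := by
    funext i j
    by_cases h : i = 0
    · simp [h]
    · simp [h]; ring
  left_inv x := by
    funext i j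
    fin_cases i
    · simp; field_simp
    · simp
  right_inv y := by
    funext i j
    fin_cases i
    · simp
    · simp; field_simp; ring

/-- one step in the second variable -/
noncomputable def stepQ (q c : ℂ) (hq : q ≠ 0) : W ≃ₗ[ℂ] W where
  toFun x := fun i j => if j = 0 then x i 1 else c * x i 1 - q * x i 0
  invFun y := fun i j => if j = 0 then (c * y i 0 - y i 1) / q else y i 0
  map_add' x y := by
    funext i j
    by_cases h : j = 0
    · simp [h]
    · simp [h]; ring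
  map_smul' r x := by
    funext i j
    by_cases h : j = 0
    · simp [h]
    · simp [h]; ring
  left_inv x := by
    funext i j
    fin_cases j
    · simp; field_simp
    · simp
  right_inv y := by
    funext i j
    fin_cases j
    · simp
    · simp; field_simp; ring

lemma stepP_zero (p c : ℂ) (hp : p ≠ 0) (x : W) (j : Fin 2) : stepP p c hp x 0 j = x 1 j := rfl
lemma stepP_one (p c : ℂ) (hp : p ≠ 0) (x : W) (j : Fin 2) : stepP p c hp x 1 j = c * x 1 j - p * x 0 j := rfl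
lemma stepQ_zero (q c : ℂ) (hq : q ≠ 0) (x : W) (i : Fin 2) : stepQ q c hq x i 0 = x i 1 := rfl
lemma stepQ_one (q c : ℂ) (hq : q ≠ 0) (x : W) (i : Fin 2) : stepQ q c hq x i 1 = c * x i 1 - q * x i 0 := rfl

lemma step_comm (p c q c' : ℂ) (hp : p ≠ 0) (hq : q ≠ 0) : Commute (stepP p c hp) (stepQ q c' hq) := by
  unfold Commute SemiconjBy
  ext x i j
  rw [LinearEquiv.mul_apply, LinearEquiv.mul_apply]
  fin_cases i <;> fin_cases j
  · show stepP p c hp (stepQ q c' hq x) 0 0 = stepQ q c' hq (stepP p c hp x) 0 0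
    rw [stepP_zero, stepQ_zero, stepQ_zero, stepP_zero]
  · show stepP p c hp (stepQ q c' hq x) 0 1 = stepQ q c' hq (stepP p c hp x) 0 1
    rw [stepP_zero, stepQ_one, stepQ_one, stepP_zero, stepP_zero]
  · show stepP p c hp (stepQ q c' hq x) 1 0 = stepQ q c' hq (stepP p c hp x) 1 0
    rw [stepP_one, stepQ_zero, stepQ_zero, stepQ_zero, stepP_one]
  · show stepP p c hp (stepQ q c' hq x) 1 1 = stepQ q c' hq (stepP p c hp x) 1 1
    rw [stepP_one, stepQ_one, stepQ_one, stepQ_one, stepP_one, stepP_one]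
    ring

/-- the solution of the recurrence `s (n + 2) = c s (n + 1) - p s n` -/
noncomputable def S (p c x₀ x₁ : ℂ) : ℕ → ℂ
  | 0 => x₀
  | 1 => x₁
  | n + 2 => c * S p c x₀ x₁ (n + 1) - p * S p c x₀ x₁ n

lemma S_unique {p c : ℂ} {g : ℕ → ℂ} (h : ∀ n, g (n + 2) = c * g (n + 1) - p * g n) (n : ℕ) :
    g n = S p c (g 0) (g 1) n := by
  have : g n = S p c (g 0) (g 1) n ∧ g (n + 1) = S p c (g 0) (g 1) (n + 1) := by
    induction n with
    | zero => exact ⟨by rw [S], by rw [S]⟩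
    | succ n ih =>
      refine ⟨ih.2, ?_⟩
      rw [h n, ih.1, ih.2, S]
  exact this.1

lemma S_continuous {X : Type} [TopologicalSpace X] (p : ℂ) {c x₀ x₁ : X → ℂ} (hc : Continuous c)
    (h0 : Continuous x₀) (h1 : Continuous x₁) (n : ℕ) : Continuous fun t => S p (c t) (x₀ t) (x₁ t) n := by
  have : Continuous (fun t => S p (c t) (x₀ t) (x₁ t) n) ∧ Continuous (fun t => S p (c t) (x₀ t) (x₁ t) (n + 1)) := by
    induction n with
    | zero => exact ⟨by simpa [S] using h0, by simpa [S] using h1⟩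
    | succ n ih =>
      refine ⟨ih.2, ?_⟩
      have h2 : (fun t => S p (c t) (x₀ t) (x₁ t) (n + 1 + 1)) =
          fun t => c t * S p (c t) (x₀ t) (x₁ t) (n + 1) - p * S p (c t) (x₀ t) (x₁ t) n := by
        funext t; rw [S]
      rw [h2]
      exact (hc.mul ih.2).sub (continuous_const.mul ih.1)
  exact this.1

/-- the value at `(a, b)` of the solution with the initial values `x` -/
noncomputable def ev (c c' : ℂ) (x : W) (a b : ℕ) : ℂ := S 2 c (S 3 c' (x 0 0) (x 0 1) b) (S 3 c' (x 1 0) (x 1 1) b) a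

lemma powQ (c : ℂ) (x : W) (i : Fin 2) (b : ℕ) :
    ((stepQ 3 c (by norm_num)) ^ b) x i 0 = S 3 c (x i 0) (x i 1) b := by
  set Q := stepQ 3 c (by norm_num) with hQ
  have h : ∀ n, (Q ^ (n + 1)) x i 0 = (Q ^ n) x i 1 := by
    intro n
    rw [pow_succ', LinearEquiv.mul_apply, hQ, stepQ_zero]
  have h' : ∀ n, (Q ^ (n + 1)) x i 1 = c * (Q ^ n) x i 1 - 3 * (Q ^ n) x i 0 := by
    intro n
    rw [pow_succ', LinearEquiv.mul_apply, hQ, stepQ_one]
  have h2 := S_unique (g := fun n => (Q ^ n) x i 0) (p := 3) (c := c) (fun n => by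
    show (Q ^ (n + 2)) x i 0 = c * (Q ^ (n + 1)) x i 0 - 3 * (Q ^ n) x i 0
    rw [h (n + 1), h' n, h n]) b
  have h3 : (Q ^ (0 + 1)) x i 0 = x i 1 := by rw [h 0]; simp
  have h4 : (Q ^ 0) x i 0 = x i 0 := by simp
  simp only [zero_add] at h3
  rw [h2]
  show S 3 c ((Q ^ 0) x i 0) ((Q ^ 1) x i 0) b = _
  rw [h3, h4]

lemma powP (c : ℂ) (x : W) (j : Fin 2) (a : ℕ) :
    ((stepP 2 c (by norm_num)) ^ a) x 0 j = S 2 c (x 0 j) (x 1 j) a := by
  set P := stepP 2 c (by norm_num) with hP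
  have h : ∀ n, (P ^ (n + 1)) x 0 j = (P ^ n) x 1 j := by
    intro n
    rw [pow_succ', LinearEquiv.mul_apply, hP, stepP_zero]
  have h' : ∀ n, (P ^ (n + 1)) x 1 j = c * (P ^ n) x 1 j - 2 * (P ^ n) x 0 j := by
    intro n
    rw [pow_succ', LinearEquiv.mul_apply, hP, stepP_one]
  have h2 := S_unique (g := fun n => (P ^ n) x 0 j) (p := 2) (c := c) (fun n => by
    show (P ^ (n + 2)) x 0 j = c * (P ^ (n + 1)) x 0 j - 2 * (P ^ n) x 0 j
    rw [h (n + 1), h' n, h n]) a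
  have h3 : (P ^ (0 + 1)) x 0 j = x 1 j := by rw [h 0]; simp
  have h4 : (P ^ 0) x 0 j = x 0 j := by simp
  simp only [zero_add] at h3
  rw [h2]
  show S 2 c ((P ^ 0) x 0 j) ((P ^ 1) x 0 j) a = _
  rw [h3, h4]

lemma ev_eq (c c' : ℂ) (x : W) (a b : ℕ) :
    ev c c' x a b = (((stepP 2 c (by norm_num)) ^ a * (stepQ 3 c' (by norm_num)) ^ b) x) 0 0 := by
  rw [LinearEquiv.mul_apply, powP, powQ, powQ, ev]

lemma ev_smul (c c' : ℂ) (r : ℂ) (x : W) (a b : ℕ) : ev c c' (r • x) a b = r * ev c c' x a b := by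
  rw [ev_eq, ev_eq, map_smul]
  rfl

lemma ev_continuous (a b : ℕ) : Continuous fun t : ℂ × ℂ × W => ev t.1 t.2.1 t.2.2 a b := by
  have hx : ∀ i j : Fin 2, Continuous fun t : ℂ × ℂ × W => t.2.2 i j := by
    intro i j
    exact (continuous_apply_apply i j).comp (continuous_snd.comp continuous_snd)
  have hc : Continuous fun t : ℂ × ℂ × W => t.1 := continuous_fst
  have hc' : Continuous fun t : ℂ × ℂ × W => t.2.1 := continuous_fst.comp continuous_snd
  exact S_continuous 2 hc (S_continuous 3 hc' (hx 0 0) (hx 0 1) b) (S_continuous 3 hc' (hx 1 0) (hx 1 1) b) a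

/-- **Quantitative form.** -/
theorem quant (K : ℝ) (A B : ℕ → ℕ → ℕ) (k₁ l₁ k₂ l₂ : ℤ)
    (hdet : k₁ * l₂ - k₂ * l₁ = 1 ∨ k₁ * l₂ - k₂ * l₁ = -1)
    (hA : ∀ i j, i < 4 → j < 4 → (A i j : ℤ) = A 0 0 + i * k₁ + j * k₂)
    (hB : ∀ i j, i < 4 → j < 4 → (B i j : ℤ) = B 0 0 + i * l₁ + j * l₂) :
    ∃ C : ℝ, 0 < C ∧ ∀ c c' : ℂ, ‖c‖ ≤ K → ‖c'‖ ≤ K → ∀ x : W,
      ‖x 0 0‖ ≤ C * ∑ i ∈ Finset.range 4, ∑ j ∈ Finset.range 4, ‖ev c c' x (A i j) (B i j)‖ := by
  let F : ℂ × ℂ × W → ℝ := fun t => ∑ i ∈ Finset.range 4, ∑ j ∈ Finset.range 4, ‖ev t.1 t.2.1 t.2.2 (A i j) (B i j)‖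
  have hF : Continuous F := by
    refine continuous_finsetSum _ fun i _ => continuous_finsetSum _ fun j _ => ?_
    exact (ev_continuous _ _).norm
  let Z : Set (ℂ × ℂ × W) := Metric.closedBall 0 K ×ˢ (Metric.closedBall 0 K ×ˢ Metric.sphere 0 1)
  have hZ : IsCompact Z := (isCompact_closedBall _ _).prod ((isCompact_closedBall _ _).prod (isCompact_sphere _ _))
  have hpos : ∀ t ∈ Z, 0 < F t := by
    rintro ⟨c, c', x⟩ ⟨-, -, hx⟩
    have hnn : 0 ≤ F (c, c', x) := Finset.sum_nonneg fun i _ => Finset.sum_nonneg fun j _ => norm_nonneg _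
    refine lt_of_le_of_ne hnn fun h0 => ?_
    have h1 : ∀ i j : ℕ, i < 4 → j < 4 → ev c c' x (A i j) (B i j) = 0 := by
      intro i j hi hj
      have h2 := (Finset.sum_eq_zero_iff_of_nonneg (fun i _ => Finset.sum_nonneg fun j _ => norm_nonneg _)).1 h0.symm
        i (Finset.mem_range.2 hi)
      have h3 := (Finset.sum_eq_zero_iff_of_nonneg (fun j _ => norm_nonneg _)).1 h2 j (Finset.mem_range.2 hj)
      exact norm_eq_zero.1 h3
    let f : W →ₗ[ℂ] ℂ := { toFun := fun x => x 0 0, map_add' := fun _ _ => rfl, map_smul' := fun _ _ => rfl }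
    have h2 : ∀ a b : ℤ, ((((stepP 2 c (by norm_num)) ^ a * (stepQ 3 c' (by norm_num)) ^ b) : W ≃ₗ[ℂ] W) x) 0 0 = 0 := by
      intro a b
      exact sixteen finrank_W (stepP 2 c (by norm_num)) (stepQ 3 c' (by norm_num))
        (step_comm 2 c 3 c' (by norm_num) (by norm_num)) f x (A 0 0) (B 0 0) k₁ l₁ k₂ l₂ hdet
        (fun i j hi hj => by
          have h3 := h1 i j hi hj
          rw [ev_eq] at h3
          rw [← hA i j hi hj, ← hB i j hi hj, zpow_natCast, zpow_natCast]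
          exact h3) a b
    have h3 : ∀ a b : ℕ, ev c c' x a b = 0 := by
      intro a b
      rw [ev_eq]
      have := h2 a b
      rwa [zpow_natCast, zpow_natCast] at this
    have h4 : x = 0 := by
      funext i j
      fin_cases i <;> fin_cases j
      · exact h3 0 0
      · exact h3 0 1
      · exact h3 1 0
      · exact h3 1 1
    rw [h4] at hx
    simp at hx
  rcases Z.eq_empty_or_nonempty with he | hne
  · -- no points: K is negative
    refine ⟨1, one_pos, fun c c' hc hc' x => ?_⟩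
    exfalso
    have : (c, c', (fun _ _ => 1 : W)) ∈ Z := by
      refine ⟨by simpa using hc, by simpa using hc', ?_⟩
      rw [mem_sphere_zero_iff_norm]
      have : (fun _ _ => 1 : W) = 1 := rfl
      rw [this]
      exact norm_one
    rw [he] at this
    exact this
  · obtain ⟨t₀, ht₀, hmin⟩ := hZ.exists_isMinOn hne hF.continuousOn
    have hm : 0 < F t₀ := hpos t₀ ht₀
    refine ⟨1 / F t₀, by positivity, fun c c' hc hc' x => ?_⟩
    rcases eq_or_ne x 0 with rfl | hx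
    · simp only [Pi.zero_apply, norm_zero]
      exact mul_nonneg (by positivity) (Finset.sum_nonneg fun i _ => Finset.sum_nonneg fun j _ => norm_nonneg _)
    · have hx0 : 0 < ‖x‖ := norm_pos_iff.2 hx
      let x₁ : W := ((‖x‖ : ℂ)⁻¹) • x
      have hx1 : ‖x₁‖ = 1 := by
        rw [norm_smul, norm_inv, Complex.norm_real, norm_norm, inv_mul_cancel₀ hx0.ne']
      have hmem : (c, c', x₁) ∈ Z := ⟨by simpa using hc, by simpa using hc', by simpa using hx1⟩
      have h1 : F t₀ ≤ F (c, c', x₁) := hmin hmem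
      have h2 : F (c, c', x₁) = ‖x‖⁻¹ * ∑ i ∈ Finset.range 4, ∑ j ∈ Finset.range 4, ‖ev c c' x (A i j) (B i j)‖ := by
        show (∑ i ∈ Finset.range 4, ∑ j ∈ Finset.range 4, ‖ev c c' x₁ (A i j) (B i j)‖) = _
        rw [Finset.mul_sum]
        refine Finset.sum_congr rfl fun i _ => ?_
        rw [Finset.mul_sum]
        refine Finset.sum_congr rfl fun j _ => ?_
        rw [ev_smul, norm_mul, norm_inv, Complex.norm_real, norm_norm]
      rw [h2] at h1
      have h3 : ‖x 0 0‖ ≤ ‖x‖ := (norm_le_pi_norm (x 0) 0).trans (norm_le_pi_norm x 0)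
      refine h3.trans ?_
      rw [one_div, ← div_eq_inv_mul, le_div_iff₀ hm]
      rw [← div_eq_inv_mul, le_div_iff₀ hx0] at h1
      linarith

end Pool.Agent.D0H29.HB
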