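import Mathlib
import Pool.Agent.N889.SN.Horo
import Pool.Agent.D0H29.HB.Exp
import Pool.Agent.D0H29.HB.Lin

/-!
# A thin horocyclic band controls the higher horocycles
-/

set_option autoImplicit false

open Finset

namespace Pool.Agent.D0H29.HB

open Pool.Agent.N889.SN (Per)

variable {K : ℕ → ℝ} {U : ℂ → ℂ}

/-- the sum over the points `(z + j) / d` -/
noncomputable def R (d : ℕ) (U : ℂ → ℂ) (z : ℂ) : ℂ := ∑ j ∈ range d, U ((z + j) / d)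

lemma R_R (d e : ℕ) (hd : 0 < d) (he : 0 < e) (U : ℂ → ℂ) (z : ℂ) : R d (R e U) z = R (d * e) U z := by
  have hd' : (d : ℂ) ≠ 0 := by exact_mod_cast hd.ne'
  have he' : (e : ℂ) ≠ 0 := by exact_mod_cast he.ne'
  have key : ∀ n : ℕ, ∑ i ∈ range d, ∑ j ∈ range n, U (((z + i) / d + j) / e) =
      ∑ m ∈ range (d * n), U ((z + m) / (d * e : ℕ)) := by
    intro n
    induction n with
    | zero => simp
    | succ n ih =>
      rw [mul_add, mul_one, sum_range_add, ← ih, ← sum_add_distrib]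
      refine sum_congr rfl fun i _ => ?_
      rw [sum_range_succ]
      congr 2
      push_cast
      field_simp
      ring
  exact key e

lemma R_one (U : ℂ → ℂ) (z : ℂ) : R 1 U z = U z := by
  simp [R]

lemma im_shift (z : ℂ) (j : ℕ) {d : ℕ} (_hd : 0 < d) : ((z + j) / (d : ℂ)).im = z.im / d := by
  rw [Complex.div_natCast_im]
  simp

lemma R_congr {V V' : ℂ → ℂ} (h : ∀ z : ℂ, 0 < z.im → V z = V' z) {d : ℕ} (hd : 0 < d) {z : ℂ} (hz : 0 < z.im) :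
    R d V z = R d V' z := by
  refine sum_congr rfl fun j _ => h _ ?_
  rw [im_shift z j hd]
  positivity

/-- two steps -/
lemma R_pp (h : Per K U) {p : ℕ} (hp : p.Prime) {c : ℂ}
    (hc : ∀ z : ℂ, 0 < z.im → U (p * z) + ∑ b ∈ range p, U ((z + b) / p) = c * U z) {z : ℂ} (hz : 0 < z.im) :
    R (p * p) U z = c * R p U z - p * U z := by
  have hp0 : (p : ℂ) ≠ 0 := by exact_mod_cast hp.ne_zero
  rw [← R_R p p hp.pos hp.pos]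
  have e : ∀ w : ℂ, 0 < w.im → R p U w = c * U w - U (p * w) := by
    intro w hw
    rw [← hc w hw, R]
    ring
  have e1 : R p (R p U) z = ∑ j ∈ range p, (c * U ((z + j) / p) - U z) := by
    refine sum_congr rfl fun j _ => ?_
    have hw : 0 < ((z + j) / (p : ℂ)).im := by
      rw [im_shift z j hp.pos]
      have := hp.pos
      positivity
    rw [e _ hw, mul_div_cancel₀ _ hp0, h.nat j hz]
  rw [e1, sum_sub_distrib, ← mul_sum, sum_const, card_range, nsmul_eq_mul, R]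

/-- the recurrence -/
lemma R_rec (h : Per K U) {p : ℕ} (hp : p.Prime) {c : ℂ}
    (hc : ∀ z : ℂ, 0 < z.im → U (p * z) + ∑ b ∈ range p, U ((z + b) / p) = c * U z) {d : ℕ} (hd : 0 < d)
    {z : ℂ} (hz : 0 < z.im) :
    R (d * (p * p)) U z = c * R (d * p) U z - p * R d U z := by
  rw [← R_R d (p * p) hd (Nat.mul_pos hp.pos hp.pos), R_congr (fun z hz => R_pp h hp hc hz) hd hz,
    ← R_R d p hd hp.pos]
  unfold R
  rw [sum_sub_distrib, ← mul_sum, ← mul_sum]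

lemma R_norm (d : ℕ) (hd : 0 < d) (U : ℂ → ℂ) (z : ℂ) : ∃ j ∈ range d, ‖R d U z‖ ≤ d * ‖U ((z + j) / d)‖ := by
  obtain ⟨j, hj, hmax⟩ := exists_max_image (range d) (fun j : ℕ => ‖U ((z + j) / d)‖) ⟨0, mem_range.2 hd⟩
  refine ⟨j, hj, ?_⟩
  calc ‖R d U z‖ ≤ ∑ i ∈ range d, ‖U ((z + i) / d)‖ := norm_sum_le _ _
    _ ≤ ∑ i ∈ range d, ‖U ((z + j) / d)‖ := sum_le_sum fun i hi => hmax i hi
    _ = _ := by rw [sum_const, card_range, nsmul_eq_mul]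

/-- the sums are given by their initial values -/
lemma R_ev (h : Per K U) : ∃ c c' : ℂ, ‖c‖ ≤ K 2 ∧ ‖c'‖ ≤ K 3 ∧ ∀ z : ℂ, 0 < z.im →
    ∃ x : W, x 0 0 = U z ∧ ∀ a b : ℕ, ev c c' x a b = R (2 ^ a * 3 ^ b) U z := by
  obtain ⟨c, hc1, hc⟩ := h.hecke 2 Nat.prime_two
  obtain ⟨c', hc1', hc'⟩ := h.hecke 3 Nat.prime_three
  refine ⟨c, c', hc1, hc1', fun z hz => ?_⟩
  refine ⟨fun i j => R (2 ^ (i : ℕ) * 3 ^ (j : ℕ)) U z, by simp [R_one], fun a b => ?_⟩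
  have h3 : ∀ i b : ℕ, R (2 ^ i * 3 ^ b) U z = S 3 c' (R (2 ^ i * 3 ^ 0) U z) (R (2 ^ i * 3 ^ 1) U z) b := by
    intro i b
    refine S_unique (g := fun b => R (2 ^ i * 3 ^ b) U z) (fun n => ?_) b
    have h1 := R_rec h Nat.prime_three hc' (d := 2 ^ i * 3 ^ n) (by positivity) hz
    have e1 : 2 ^ i * 3 ^ (n + 2) = 2 ^ i * 3 ^ n * (3 * 3) := by ring
    have e2 : 2 ^ i * 3 ^ (n + 1) = 2 ^ i * 3 ^ n * 3 := by ring
    show R (2 ^ i * 3 ^ (n + 2)) U z = c' * R (2 ^ i * 3 ^ (n + 1)) U z - 3 * R (2 ^ i * 3 ^ n) U z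
    rw [e1, e2, h1]
    norm_num
  have h2 : ∀ a b : ℕ, R (2 ^ a * 3 ^ b) U z = S 2 c (R (2 ^ 0 * 3 ^ b) U z) (R (2 ^ 1 * 3 ^ b) U z) a := by
    intro a b
    refine S_unique (g := fun a => R (2 ^ a * 3 ^ b) U z) (fun n => ?_) a
    have h1 := R_rec h Nat.prime_two hc (d := 2 ^ n * 3 ^ b) (by positivity) hz
    have e1 : 2 ^ (n + 2) * 3 ^ b = 2 ^ n * 3 ^ b * (2 * 2) := by ring
    have e2 : 2 ^ (n + 1) * 3 ^ b = 2 ^ n * 3 ^ b * 2 := by ring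
    show R (2 ^ (n + 2) * 3 ^ b) U z = c * R (2 ^ (n + 1) * 3 ^ b) U z - 2 * R (2 ^ n * 3 ^ b) U z
    rw [e1, e2, h1]
    norm_num
  rw [h2 a b, h3 0 b, h3 1 b]
  rfl

/-- **Thin bands, one height.** -/
theorem one_height (K : ℕ → ℝ) (k₁ l₁ k₂ l₂ : ℤ) (hdet : k₁ * l₂ - k₂ * l₁ = 1 ∨ k₁ * l₂ - k₂ * l₁ = -1)
    (a₀ b₀ : ℕ) (ha : 3 * (k₁.natAbs + k₂.natAbs) ≤ a₀) (hb : 3 * (l₁.natAbs + l₂.natAbs) ≤ b₀) :
    ∃ C : ℝ, 0 < C ∧ ∀ U : ℂ → ℂ, Per K U → ∀ z : ℂ, 0 < z.im →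
      ∃ (a b j : ℕ) (m n : ℕ), m < 4 ∧ n < 4 ∧ (a : ℤ) = a₀ + m * k₁ + n * k₂ ∧ (b : ℤ) = b₀ + m * l₁ + n * l₂ ∧
        ‖U z‖ ≤ C * ‖U ((z + j) / (2 ^ a * 3 ^ b : ℕ))‖ := by
  have hpos : ∀ (a₀ : ℕ) (k₁ k₂ : ℤ), 3 * (k₁.natAbs + k₂.natAbs) ≤ a₀ → ∀ i j : ℕ, i < 4 → j < 4 →
      0 ≤ (a₀ : ℤ) + i * k₁ + j * k₂ := by
    intro a₀ k₁ k₂ ha i j hi hj
    have h1 : -(k₁.natAbs : ℤ) ≤ k₁ := by omega
    have h2 : -(k₂.natAbs : ℤ) ≤ k₂ := by omega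
    have h3 : (i : ℤ) * (-(k₁.natAbs : ℤ)) ≤ i * k₁ := by gcongr
    have h4 : (j : ℤ) * (-(k₂.natAbs : ℤ)) ≤ j * k₂ := by gcongr
    have h5 : (i : ℤ) * k₁.natAbs ≤ 3 * k₁.natAbs := by gcongr; omega
    have h6 : (j : ℤ) * k₂.natAbs ≤ 3 * k₂.natAbs := by gcongr; omega
    have h7 : (3 : ℤ) * (k₁.natAbs + k₂.natAbs) ≤ a₀ := by exact_mod_cast ha
    linarith
  let A : ℕ → ℕ → ℕ := fun i j => ((a₀ : ℤ) + i * k₁ + j * k₂).toNat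
  let B : ℕ → ℕ → ℕ := fun i j => ((b₀ : ℤ) + i * l₁ + j * l₂).toNat
  have hA : ∀ i j, i < 4 → j < 4 → (A i j : ℤ) = a₀ + i * k₁ + j * k₂ := fun i j hi hj =>
    Int.toNat_of_nonneg (hpos a₀ k₁ k₂ ha i j hi hj)
  have hB : ∀ i j, i < 4 → j < 4 → (B i j : ℤ) = b₀ + i * l₁ + j * l₂ := fun i j hi hj =>
    Int.toNat_of_nonneg (hpos b₀ l₁ l₂ hb i j hi hj)
  have hA0 : (A 0 0 : ℤ) = a₀ := by rw [hA 0 0 (by norm_num) (by norm_num)]; simp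
  have hB0 : (B 0 0 : ℤ) = b₀ := by rw [hB 0 0 (by norm_num) (by norm_num)]; simp
  obtain ⟨C, hC, hq⟩ := quant (max (K 2) (K 3)) A B k₁ l₁ k₂ l₂ hdet
    (fun i j hi hj => by rw [hA0]; exact hA i j hi hj) (fun i j hi hj => by rw [hB0]; exact hB i j hi hj)
  let D : ℕ → ℕ → ℝ := fun i j => ((2 ^ A i j * 3 ^ B i j : ℕ) : ℝ)
  have hD : ∀ i j, 0 < D i j := fun i j => by
    show (0 : ℝ) < ((2 ^ A i j * 3 ^ B i j : ℕ) : ℝ)
    positivity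
  have hS : 0 < ∑ i ∈ range 4, ∑ j ∈ range 4, D i j :=
    sum_pos (fun i _ => sum_pos (fun j _ => hD i j) ⟨0, by simp⟩) ⟨0, by simp⟩
  refine ⟨C * ∑ i ∈ range 4, ∑ j ∈ range 4, D i j, by positivity, fun U hU z hz => ?_⟩
  obtain ⟨c, c', hc, hc', hx⟩ := R_ev hU
  obtain ⟨x, hx0, hx1⟩ := hx z hz
  have h1 := hq c c' (hc.trans (le_max_left _ _)) (hc'.trans (le_max_right _ _)) x
  rw [hx0] at h1
  -- the points
  have h2 : ∀ i j : ℕ, ∃ t : ℕ, ‖R (2 ^ A i j * 3 ^ B i j) U z‖ ≤ D i j * ‖U ((z + t) / (2 ^ A i j * 3 ^ B i j : ℕ))‖ := by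
    intro i j
    obtain ⟨t, -, ht⟩ := R_norm (2 ^ A i j * 3 ^ B i j) (by positivity) U z
    exact ⟨t, ht⟩
  choose t ht using h2
  let g : ℕ × ℕ → ℝ := fun q => ‖U ((z + t q.1 q.2) / (2 ^ A q.1 q.2 * 3 ^ B q.1 q.2 : ℕ))‖
  obtain ⟨⟨m, n⟩, hmn, hmax⟩ := exists_max_image (range 4 ×ˢ range 4) g ⟨(0, 0), by simp⟩
  rw [mem_product, mem_range, mem_range] at hmn
  refine ⟨A m n, B m n, t m n, m, n, hmn.1, hmn.2, hA m n hmn.1 hmn.2, hB m n hmn.1 hmn.2, ?_⟩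
  refine h1.trans ?_
  rw [mul_assoc]
  refine mul_le_mul_of_nonneg_left ?_ hC.le
  rw [sum_mul]
  refine sum_le_sum fun i hi => ?_
  rw [sum_mul]
  refine sum_le_sum fun j hj => ?_
  rw [hx1]
  refine (ht i j).trans ?_
  exact mul_le_mul_of_nonneg_left (hmax (i, j) (mem_product.2 ⟨hi, hj⟩)) (hD i j).le

/-- **Thin bands.**  For `0 < Y₁ < Y₂` there is `D₁` such that the band `Y₁ < Im w < Y₂` controls the band
`D₁ ≤ Im z ≤ D₂` for every `D₂`. -/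
theorem thin (K : ℕ → ℝ) {Y₁ Y₂ : ℝ} (hY₁ : 0 < Y₁) (hY : Y₁ < Y₂) :
    ∃ D₁ : ℝ, 0 < D₁ ∧ ∀ D₂ : ℝ, ∃ C : ℝ, 0 < C ∧ ∀ U : ℂ → ℂ, Per K U → ∀ z : ℂ, D₁ ≤ z.im → z.im ≤ D₂ →
      ∃ w : ℂ, Y₁ < w.im ∧ w.im < Y₂ ∧ ‖U z‖ ≤ C * ‖U w‖ := by
  have hY₂ : 0 < Y₂ := hY₁.trans hY
  obtain ⟨ρ, hρ⟩ : ∃ ρ, ρ = Real.log Y₂ - Real.log Y₁ := ⟨_, rfl⟩
  have hρ0 : 0 < ρ := by rw [hρ]; linarith [Real.log_lt_log hY₁ hY]
  obtain ⟨k₁, l₁, k₂, l₂, hdet, v1, v1', v2, v2'⟩ := exists_um (ρ / 16) (by positivity)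
  set A := 3 * (k₁.natAbs + k₂.natAbs) with hA
  set B := 3 * (l₁.natAbs + l₂.natAbs) with hB
  obtain ⟨t₀, ht₀⟩ := exists_base k₁ l₁ v1 v1' A B
  refine ⟨Real.exp (t₀ + Real.log Y₂), Real.exp_pos _, fun D₂ => ?_⟩
  -- the constants, one for every base point
  have hC : ∀ q : ℕ × ℕ, ∃ C : ℝ, 0 < C ∧ (A ≤ q.1 → B ≤ q.2 → ∀ U : ℂ → ℂ, Per K U → ∀ z : ℂ, 0 < z.im →
      ∃ (a b j : ℕ) (m n : ℕ), m < 4 ∧ n < 4 ∧ (a : ℤ) = q.1 + m * k₁ + n * k₂ ∧ (b : ℤ) = q.2 + m * l₁ + n * l₂ ∧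
        ‖U z‖ ≤ C * ‖U ((z + j) / (2 ^ a * 3 ^ b : ℕ))‖) := by
    intro q
    by_cases h : A ≤ q.1 ∧ B ≤ q.2
    · obtain ⟨C, hC, h1⟩ := one_height K k₁ l₁ k₂ l₂ hdet q.1 q.2 h.1 h.2
      exact ⟨C, hC, fun _ _ => h1⟩
    · exact ⟨1, one_pos, fun h1 h2 => absurd ⟨h1, h2⟩ h⟩
  choose C hC0 hC1 using hC
  -- finitely many base points
  obtain ⟨M, hM⟩ : ∃ M : ℕ, ∀ a b : ℕ, ph a b ≤ Real.log D₂ - Real.log Y₂ + ρ → a < M ∧ b < M := by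
    obtain ⟨M, hM⟩ := exists_nat_gt ((Real.log D₂ - Real.log Y₂ + ρ) / Real.log 2)
    refine ⟨M, fun a b hab => ?_⟩
    have h2 := log2_pos
    have h3 : Real.log 2 ≤ Real.log 3 := Real.log_le_log (by norm_num) (by norm_num)
    rw [div_lt_iff₀ h2] at hM
    unfold ph at hab
    push_cast at hab
    constructor
    · by_contra hlt
      push Not at hlt
      have h4 : (M : ℝ) ≤ a := by exact_mod_cast hlt
      have h5 : (M : ℝ) * Real.log 2 ≤ a * Real.log 2 := by gcongr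
      have h6 : 0 ≤ (b : ℝ) * Real.log 3 := by have := log3_pos; positivity
      linarith
    · by_contra hlt
      push Not at hlt
      have h4 : (M : ℝ) ≤ b := by exact_mod_cast hlt
      have h5 : (M : ℝ) * Real.log 2 ≤ b * Real.log 3 := by gcongr
      have h6 : 0 ≤ (a : ℝ) * Real.log 2 := by positivity
      linarith
  refine ⟨∑ q ∈ range (M + 1) ×ˢ range (M + 1), C q, sum_pos (fun q _ => hC0 q) ⟨(0, 0), by simp⟩,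
    fun U hU z hz1 hz2 => ?_⟩
  have hz : 0 < z.im := lt_of_lt_of_le (Real.exp_pos _) hz1
  have hlog : t₀ + Real.log Y₂ ≤ Real.log z.im := by
    rw [← Real.log_exp (t₀ + Real.log Y₂)]
    exact Real.log_le_log (Real.exp_pos _) hz1
  obtain ⟨a₀, b₀, ha₀, hb₀, h1, h2⟩ := ht₀ (Real.log z.im - Real.log Y₂ + ρ / 16) (by linarith)
  have hlog2 : Real.log z.im ≤ Real.log D₂ := Real.log_le_log hz hz2
  obtain ⟨m1, m2⟩ := hM a₀ b₀ (by linarith)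
  obtain ⟨a, b, j, m, n, hm, hn, ea, eb, h3⟩ := hC1 (a₀, b₀) ha₀ hb₀ U hU z hz
  have hd0 : (0 : ℝ) < ((2 ^ a * 3 ^ b : ℕ) : ℝ) := by positivity
  have him : ((z + j) / ((2 ^ a * 3 ^ b : ℕ) : ℂ)).im = z.im / ((2 ^ a * 3 ^ b : ℕ) : ℝ) :=
    im_shift z j (by positivity)
  have hph : ph a b = ph a₀ b₀ + m * ph k₁ l₁ + n * ph k₂ l₂ := by
    rw [ea, eb]
    unfold ph
    push_cast
    ring
  have hlogd : Real.log ((2 ^ a * 3 ^ b : ℕ) : ℝ) = ph a b := by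
    rw [ph_nat]
    push_cast
    rfl
  have hm' : (m : ℝ) ≤ 3 := by
    have : m ≤ 3 := by omega
    exact_mod_cast this
  have hn' : (n : ℝ) ≤ 3 := by
    have : n ≤ 3 := by omega
    exact_mod_cast this
  have g1 : 0 ≤ (m : ℝ) * ph k₁ l₁ := by positivity
  have g2 : 0 ≤ (n : ℝ) * ph k₂ l₂ := by positivity
  have g3 : (m : ℝ) * ph k₁ l₁ ≤ 3 * (ρ / 16) := by gcongr
  have g4 : (n : ℝ) * ph k₂ l₂ ≤ 3 * (ρ / 16) := by gcongr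
  refine ⟨(z + j) / (2 ^ a * 3 ^ b : ℕ), ?_, ?_, h3.trans ?_⟩
  · rw [him, ← Real.log_lt_log_iff hY₁ (by positivity), Real.log_div hz.ne' hd0.ne', hlogd]
    linarith
  · rw [him, ← Real.log_lt_log_iff (by positivity) hY₂, Real.log_div hz.ne' hd0.ne', hlogd]
    linarith
  · gcongr
    exact single_le_sum (f := C) (fun q _ => (hC0 q).le) (mem_product.2 ⟨mem_range.2 (by omega), mem_range.2 (by omega)⟩)

end Pool.Agent.D0H29.HB
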