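import Mathlib
import Pool.Agent.D0H29.HB.Band
import Pool.Agent.Results.MP_8fded1_nt.CuspControlsCompactSets

/-!
# Open sets which contain a closed horocycle control all values
-/

set_option autoImplicit false

open Filter UpperHalfPlane
open scoped Modular MatrixGroups Topology

namespace Pool.Agent.D0H29.HB

open Pool.Agent.Results.MP_8fded1_nt.EllipticPointIsHarmless (IsHeckeMaass SupNormBound invariance moeb coe_smul_eq
  moeb_den_ne)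
open Pool.Agent.Results.MP_8fded1_nt.CuspControlsCompactSets (Box toCore toCusp isCompact_box box_pos)

/-- the open set `V` contains a closed horocycle of the modular surface, of height `Y` -/
def HasHorocycle (V : Set ℂ) (Y : ℝ) : Prop :=
  ∀ x : ℝ, ∃ g : SL(2, ℤ), moeb g ((x : ℂ) + (Y : ℂ) * Complex.I) ∈ V

lemma moeb_inv {U : ℂ → ℂ} {T : ℝ} (hU : IsHeckeMaass U T) (g : SL(2, ℤ)) {z : ℂ} (hz : 0 < z.im) :
    U (moeb g z) = U z := by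
  have h := invariance hU.2.1 g ⟨z, hz⟩
  rw [coe_smul_eq] at h
  exact h

lemma moeb_im (g : SL(2, ℤ)) {z : ℂ} (hz : 0 < z.im) : 0 < (moeb g z).im := by
  have h := (g • (⟨z, hz⟩ : ℍ)).im_pos
  have e := coe_smul_eq g ⟨z, hz⟩
  rw [← UpperHalfPlane.coe_im, e] at h
  exact h

lemma moeb_cont (g : SL(2, ℤ)) : ContinuousOn (moeb g) {z : ℂ | 0 < z.im} := by
  unfold moeb
  refine ContinuousOn.div ?_ ?_ fun z hz => moeb_den_ne hz
  · exact (continuous_const.mul continuous_id).add continuous_const |>.continuousOn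
  · exact (continuous_const.mul continuous_id).add continuous_const |>.continuousOn

lemma isOpen_H : IsOpen {z : ℂ | 0 < z.im} := isOpen_lt continuous_const Complex.continuous_im

lemma shift_inv {U : ℂ → ℂ} {T : ℝ} (hU : IsHeckeMaass U T) (n : ℤ) {z : ℂ} (hz : 0 < z.im) : U (z + n) = U z :=
  (Pool.Agent.N889.SN.isPer hU).int n hz

/-- a neighbourhood of the horocycle -/
lemma nbhd {V : Set ℂ} (hV : IsOpen V) {Y : ℝ} (hY : 0 < Y) (h : HasHorocycle V Y) :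
    ∃ η : ℝ, 0 < η ∧ ∀ w : ℂ, 0 < w.im → |w.im - Y| < η →
      ∃ v ∈ V, 0 < v.im ∧ ∀ (U : ℂ → ℂ) (T : ℝ), IsHeckeMaass U T → U w = U v := by
  let W : Set ℂ := ⋃ g : SL(2, ℤ), ({z : ℂ | 0 < z.im} ∩ (moeb g) ⁻¹' V)
  have hW : IsOpen W := isOpen_iUnion fun g => (moeb_cont g).isOpen_inter_preimage isOpen_H hV
  let K : Set ℂ := (fun x : ℝ => (x : ℂ) + (Y : ℂ) * Complex.I) '' Set.Icc 0 1
  have hK : IsCompact K := isCompact_Icc.image (by fun_prop)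
  have hKW : K ⊆ W := by
    rintro _ ⟨x, -, rfl⟩
    obtain ⟨g, hg⟩ := h x
    refine Set.mem_iUnion.2 ⟨g, ?_, hg⟩
    simpa using hY
  obtain ⟨δ, hδ, hδW⟩ := hK.exists_thickening_subset_open hW hKW
  refine ⟨δ, hδ, fun w hw hwY => ?_⟩
  have hmem : w + ((-⌊w.re⌋ : ℤ) : ℂ) ∈ W := by
    apply hδW
    rw [Metric.mem_thickening_iff]
    refine ⟨((Int.fract w.re : ℝ) : ℂ) + (Y : ℂ) * Complex.I, ⟨Int.fract w.re, ⟨Int.fract_nonneg _, (Int.fract_lt_one _).le⟩, rfl⟩, ?_⟩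
    have e : w + ((-⌊w.re⌋ : ℤ) : ℂ) - (((Int.fract w.re : ℝ) : ℂ) + (Y : ℂ) * Complex.I) = ((w.im - Y : ℝ) : ℂ) * Complex.I := by
      have hf := Int.self_sub_floor w.re
      apply Complex.ext
      · simp
        linarith
      · simp
    rw [Complex.dist_eq, e, norm_mul, Complex.norm_I, mul_one, Complex.norm_real, Real.norm_eq_abs]
    exact hwY
  obtain ⟨g, hg1, hg2⟩ := Set.mem_iUnion.1 hmem
  refine ⟨moeb g (w + ((-⌊w.re⌋ : ℤ) : ℂ)), hg2, moeb_im g hg1, fun U T hU => ?_⟩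
  rw [moeb_inv hU g hg1, shift_inv hU _ hw]

/-- down to the core, with a polynomial bound -/
lemma toCorePoly : ∃ A : ℕ, ∃ C : ℝ, 0 < C ∧ ∀ (U : ℂ → ℂ) (T : ℝ), IsHeckeMaass U T → ∀ z : ℂ, 0 < z.im →
    ∃ w ∈ Box (1 / 2) (5 / 2), ‖U z‖ ≤ C * (z.im + 1 / z.im) ^ A * ‖U w‖ := by
  set k := Pool.Agent.N889.SN.KK 2 + 2 with hk
  have hK2 := Pool.Agent.N889.SN.KK_nonneg 2
  obtain ⟨A, hA⟩ := pow_unbounded_of_one_lt k (by norm_num : (1 : ℝ) < 25 / 16)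
  refine ⟨A, (25 / 16) ^ A, by positivity, fun U T hU z hz => ?_⟩
  have ht2 : 1 ≤ z.im + 1 / z.im := by
    rcases le_or_gt 1 z.im with h | h
    · have : 0 < 1 / z.im := by positivity
      linarith
    · have : 1 ≤ 1 / z.im := by rw [le_div_iff₀ hz]; linarith
      linarith
  set t := z.im + 1 / z.im with ht
  obtain ⟨n, hn1, hn2⟩ := exists_nat_pow_near ht2 (by norm_num : (1 : ℝ) < 25 / 16)
  obtain ⟨g, hg⟩ := ModularGroup.exists_smul_mem_fd (⟨z, hz⟩ : ℍ)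
  have hinv := invariance hU.2.1
  have h1 : (g • (⟨z, hz⟩ : ℍ)).im ≤ 5 / 2 * (25 / 16) ^ (n + 1) := by
    have h2 := Pool.Agent.N889.SN.im_smul_le g ⟨z, hz⟩
    have h3 : max (⟨z, hz⟩ : ℍ).im (1 / (⟨z, hz⟩ : ℍ).im) ≤ t := by
      have h4 : 0 < 1 / z.im := by positivity
      exact max_le (by show z.im ≤ t; linarith) (by show 1 / z.im ≤ t; linarith)
    have h5 : (0 : ℝ) < (25 / 16) ^ (n + 1) := by positivity
    have h6 := hn2.le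
    linarith
  obtain ⟨w, hw, hw1, hw2⟩ := Pool.Agent.N889.SN.core Pool.Agent.N889.SN.KK Pool.Agent.N889.SN.KK_nonneg U
    (Pool.Agent.N889.SN.isPer hU) hinv (n + 1) _ hg h1
  rw [hinv g ⟨z, hz⟩] at hw2
  refine ⟨w, ⟨hw.2, ?_, hw1⟩, hw2.trans ?_⟩
  · have hy := ModularGroup.three_le_four_mul_im_sq_of_mem_fd hw
    have hy0 : 0 < w.im := w.im_pos
    rw [UpperHalfPlane.coe_im]
    nlinarith
  · gcongr
    rw [← hk]
    have hk0 : 0 ≤ k := by rw [hk]; linarith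
    calc k ^ (n + 1) ≤ ((25 / 16) ^ A) ^ (n + 1) := by gcongr
      _ = ((25 / 16) * (25 / 16) ^ n) ^ A := by rw [← pow_succ', ← pow_mul, ← pow_mul, mul_comm]
      _ ≤ ((25 / 16) * t) ^ A := by gcongr
      _ = _ := by rw [mul_pow]

/-- **The core is controlled.** -/
theorem core_controlled {V : Set ℂ} (hV : IsOpen V) {Y : ℝ} (hY : 0 < Y) (h : HasHorocycle V Y) :
    ∃ C : ℝ, 0 < C ∧ ∀ (U : ℂ → ℂ) (T : ℝ), IsHeckeMaass U T → ∀ z ∈ Box (1 / 2) (5 / 2),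
      ∃ w ∈ V, 0 < w.im ∧ ‖U z‖ ≤ C * ‖U w‖ := by
  obtain ⟨η, hη, hη'⟩ := nbhd hV hY h
  obtain ⟨η', h1, h2, h3⟩ : ∃ η' : ℝ, 0 < η' ∧ η' ≤ η ∧ η' ≤ Y / 2 :=
    ⟨min η (Y / 2), lt_min hη (by positivity), min_le_left _ _, min_le_right _ _⟩
  obtain ⟨D₁, hD₁, hthin⟩ := thin Pool.Agent.N889.SN.KK (Y₁ := Y - η') (Y₂ := Y + η') (by linarith) (by linarith)
  obtain ⟨C₁, Y₂, hC₁, -, hcusp⟩ := toCusp D₁
  obtain ⟨C₂, hC₂, hthin'⟩ := hthin Y₂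
  refine ⟨C₁ * C₂, by positivity, fun U T hU z hz => ?_⟩
  obtain ⟨w₁, hw₁, e1⟩ := hcusp U T hU z hz
  obtain ⟨w₂, hw₂, hw₂', e2⟩ := hthin' U (Pool.Agent.N889.SN.isPer hU) w₁ hw₁.2.1 hw₁.2.2
  have him : 0 < w₂.im := by linarith
  obtain ⟨v, hv, hv0, e3⟩ := hη' w₂ him (by rw [abs_lt]; constructor <;> linarith)
  refine ⟨v, hv, hv0, ?_⟩
  rw [← e3 U T hU]
  calc ‖U z‖ ≤ C₁ * ‖U w₁‖ := e1
    _ ≤ C₁ * (C₂ * ‖U w₂‖) := by gcongr
    _ = _ := by ring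

/-- **All values are controlled.** -/
theorem controlled : ∃ A : ℕ, ∀ V : Set ℂ, IsOpen V → ∀ Y : ℝ, 0 < Y → HasHorocycle V Y →
    ∃ C : ℝ, 0 < C ∧ ∀ (U : ℂ → ℂ) (T : ℝ), IsHeckeMaass U T → ∀ z : ℂ, 0 < z.im →
      ∃ w ∈ V, 0 < w.im ∧ ‖U z‖ ≤ C * (z.im + 1 / z.im) ^ A * ‖U w‖ := by
  obtain ⟨A, C, hC, hcore⟩ := toCorePoly
  refine ⟨A, fun V hV Y hY h => ?_⟩
  obtain ⟨C', hC', h'⟩ := core_controlled hV hY h
  refine ⟨C * C', by positivity, fun U T hU z hz => ?_⟩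
  obtain ⟨w, hw, e1⟩ := hcore U T hU z hz
  obtain ⟨v, hv, hv0, e2⟩ := h' U T hU w hw
  refine ⟨v, hv, hv0, ?_⟩
  have ht : 0 ≤ z.im + 1 / z.im := by positivity
  calc ‖U z‖ ≤ C * (z.im + 1 / z.im) ^ A * ‖U w‖ := e1
    _ ≤ C * (z.im + 1 / z.im) ^ A * (C' * ‖U v‖) := by gcongr
    _ = _ := by ring

/-- the hyperbolic disc, as a set of complex numbers -/
def Disc (z₀ : ℍ) (r : ℝ) : Set ℂ := {z : ℂ | ∃ hz : 0 < z.im, dist (⟨z, hz⟩ : ℍ) z₀ < r}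

lemma disc_eq (z₀ : ℍ) (r : ℝ) : Disc z₀ r = ((↑) : ℍ → ℂ) '' Metric.ball z₀ r := by
  ext z
  constructor
  · rintro ⟨hz, h⟩
    exact ⟨⟨z, hz⟩, h, rfl⟩
  · rintro ⟨w, hw, rfl⟩
    exact ⟨w.im_pos, hw⟩

lemma isOpen_disc (z₀ : ℍ) (r : ℝ) : IsOpen (Disc z₀ r) := by
  rw [disc_eq]
  exact isOpenEmbedding_coe.isOpenMap _ Metric.isOpen_ball

lemma disc_sub (z₀ : ℍ) (r : ℝ) : ∃ Ω : Set ℂ, IsCompact Ω ∧ Ω ⊆ {z : ℂ | 0 < z.im} ∧ Disc z₀ r ⊆ Ω := by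
  refine ⟨((↑) : ℍ → ℂ) '' Metric.closedBall z₀ r, (isCompact_closedBall z₀ r).image continuous_coe, ?_, ?_⟩
  · rintro _ ⟨w, -, rfl⟩
    exact w.im_pos
  · rw [disc_eq]
    exact Set.image_mono Metric.ball_subset_closedBall

lemma disc_horo {z₀ : ℍ} {r : ℝ} (hr : 0 < r) (h : 1 / (2 * r) < z₀.im) : HasHorocycle (Disc z₀ r) z₀.im := by
  intro x
  set n : ℤ := round (z₀.re - x) with hn
  refine ⟨ModularGroup.T ^ n, ?_⟩
  have hY : 0 < z₀.im := z₀.im_pos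
  have him : 0 < (((x : ℂ) + ((z₀.im : ℝ) : ℂ) * Complex.I)).im := by simpa using hY
  have e1 : moeb (ModularGroup.T ^ n) ((x : ℂ) + ((z₀.im : ℝ) : ℂ) * Complex.I) = ((x + n : ℝ) : ℂ) + ((z₀.im : ℝ) : ℂ) * Complex.I := by
    unfold moeb
    rw [ModularGroup.coe_T_zpow]
    simp
    ring
  rw [e1]
  have him' : 0 < ((((x + n : ℝ) : ℂ) + ((z₀.im : ℝ) : ℂ) * Complex.I)).im := by
    simpa using hY
  refine ⟨him', ?_⟩
  have hcosh : Real.cosh (dist (⟨_, him'⟩ : ℍ) z₀) ≤ 1 + 1 / (8 * z₀.im ^ 2) := by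
    rw [UpperHalfPlane.cosh_dist]
    have e2 : (⟨_, him'⟩ : ℍ).im = z₀.im := by
      show ((((x + n : ℝ) : ℂ) + ((z₀.im : ℝ) : ℂ) * Complex.I)).im = z₀.im
      simp
    have e3 : dist ((((x + n : ℝ) : ℂ) + ((z₀.im : ℝ) : ℂ) * Complex.I)) (z₀ : ℂ) ^ 2 = (z₀.re - x - n) ^ 2 := by
      rw [Complex.dist_eq]
      have e4 : ((((x + n : ℝ) : ℂ) + ((z₀.im : ℝ) : ℂ) * Complex.I)) - (z₀ : ℂ) = ((-(z₀.re - x - n) : ℝ) : ℂ) := by
        apply Complex.ext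
        · simp
          ring
        · simp
      rw [e4, Complex.norm_real, Real.norm_eq_abs, sq_abs]
      ring
    rw [e2]
    show 1 + dist ((((x + n : ℝ) : ℂ) + ((z₀.im : ℝ) : ℂ) * Complex.I)) (z₀ : ℂ) ^ 2 / (2 * z₀.im * z₀.im) ≤ _
    rw [e3]
    have h5 := abs_sub_round (z₀.re - x)
    rw [← hn] at h5
    have h6 : (z₀.re - x - n) ^ 2 ≤ (1 / 2) ^ 2 := sq_le_sq' (by linarith [(abs_le.1 h5).1]) (abs_le.1 h5).2
    have h7 : (z₀.re - x - n) ^ 2 / (2 * z₀.im * z₀.im) ≤ (1 / 2) ^ 2 / (2 * z₀.im * z₀.im) := by gcongr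
    have h8 : (1 / 2 : ℝ) ^ 2 / (2 * z₀.im * z₀.im) = 1 / (8 * z₀.im ^ 2) := by
      field_simp
      norm_num
    linarith
  have hr2 : 1 + r ^ 2 / 2 ≤ Real.cosh r := by
    have h1 : r / 2 ≤ Real.sinh (r / 2) := Real.self_le_sinh_iff.2 (by positivity)
    have h2 : Real.cosh r = Real.cosh (r / 2) ^ 2 + Real.sinh (r / 2) ^ 2 := by
      rw [← Real.cosh_two_mul]
      congr 1
      ring
    have h3 := Real.cosh_sq (r / 2)
    have h4 : (r / 2) ^ 2 ≤ Real.sinh (r / 2) ^ 2 := pow_le_pow_left₀ (by positivity) h1 2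
    nlinarith
  have h9 : 1 / (8 * z₀.im ^ 2) < r ^ 2 / 2 := by
    rw [div_lt_iff₀ (by positivity)] at h
    rw [div_lt_iff₀ (by positivity)]
    have h10 : 1 < (z₀.im * (2 * r)) ^ 2 := by
      nlinarith
    nlinarith
  by_contra hlt
  push Not at hlt
  have h11 : Real.cosh r ≤ Real.cosh (dist (⟨_, him'⟩ : ℍ) z₀) := by
    rw [Real.cosh_le_cosh, abs_of_pos hr, abs_of_nonneg dist_nonneg]
    exact hlt
  linarith

end Pool.Agent.D0H29.HB
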